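import Pool.Agent.Helper9.RC2.Goals
import Pool.Agent.Helper32.RC.CutDown

/-!
# MP_b55b7c_an, packet RC2-BLK: block diagonal matrices with index `Fin N`
-/

open scoped ENNReal NNReal InnerProductSpace ComplexOrder CStarAlgebra
open Filter Topology

attribute [-instance] CStarMatrix.instAlgebra CStarMatrix.instModule CStarMatrix.instSMul
  CStarMatrix.instMulAction CStarMatrix.instDistribMulAction

set_option linter.unusedSectionVars false

noncomputable section
namespace Pool.Agent.Helper12.RC2.BLK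
universe u

open RC RC.CutDown

variable {A : Type u} [CStarAlgebra A] [PartialOrder A] [StarOrderedRing A]
variable {ι κ : Type} [Fintype ι] [DecidableEq ι] [Fintype κ] [DecidableEq κ]

/-- Reindexing of a square matrix. -/
def ri (e : ι ≃ κ) (x : CStarMatrix ι ι A) : CStarMatrix κ κ A :=
  CStarMatrix.ofMatrix (Matrix.submatrix (x : Matrix ι ι A) e.symm e.symm)

/-- Reindexing as a homomorphism. -/
def riHom (A : Type u) [CStarAlgebra A] [PartialOrder A] [StarOrderedRing A] (e : ι ≃ κ) :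
    CStarMatrix ι ι A →⋆ₐ[ℂ] CStarMatrix κ κ A where
  toFun := ri e
  map_one' := Matrix.submatrix_one_equiv e.symm
  map_mul' x y := (Matrix.submatrix_mul_equiv (x : Matrix ι ι A) (y : Matrix ι ι A)
    e.symm e.symm e.symm).symm
  map_zero' := rfl
  map_add' _ _ := rfl
  commutes' r := by
    rw [Algebra.algebraMap_eq_smul_one, Algebra.algebraMap_eq_smul_one]
    have h : ri e (1 : CStarMatrix ι ι A) = 1 := Matrix.submatrix_one_equiv e.symm
    rw [← h]
    rfl
  map_star' _ := rfl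

theorem ri_nonneg (e : ι ≃ κ) {x : CStarMatrix ι ι A} (hx : 0 ≤ x) : 0 ≤ ri e x := by
  obtain ⟨s, hs⟩ := CStarAlgebra.nonneg_iff_eq_mul_star_self.mp hx
  have : ri e x = ri e s * (ri e s).conjTranspose := by
    have h1 : riHom A e (s * star s) = riHom A e s * star (riHom A e s) := by
      rw [map_mul, map_star]
    rw [hs]
    exact h1
  rw [this]
  exact cm_mul_conj_nonneg _

theorem cut_ri (e : ι ≃ κ) {x : CStarMatrix ι ι A} (hx : IsSelfAdjoint x) (g : ℝ) :
    cut (ri e x) g = ri e (cut x g) :=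
  (cfc_hom (riHom A e) _ (by fun_prop) x hx).symm

/-- The permutation matrix. -/
def pm (A : Type u) [CStarAlgebra A] (e : ι ≃ κ) : CStarMatrix κ ι A :=
  CStarMatrix.ofMatrix (Matrix.submatrix (1 : Matrix ι ι A) e.symm id)

theorem pm_conj0 (e : ι ≃ κ) (x : Matrix ι ι A) :
    (Matrix.submatrix (1 : Matrix ι ι A) e.symm id * x) *
      Matrix.conjTranspose (Matrix.submatrix (1 : Matrix ι ι A) e.symm id) =
      Matrix.submatrix x e.symm e.symm := by
  ext i j
  rw [Matrix.mul_apply]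
  simp only [Matrix.mul_apply, Matrix.one_apply, Matrix.submatrix_apply, id_eq,
    Matrix.conjTranspose_apply, ite_mul, one_mul, zero_mul, Finset.sum_ite_eq, Finset.mem_univ,
    if_true]
  rw [Finset.sum_eq_single (e.symm j)]
  · simp
  · intro b _ hb
    rw [if_neg (Ne.symm hb)]
    simp
  · intro h
    exact absurd (Finset.mem_univ _) h

theorem pm_conj (e : ι ≃ κ) (x : CStarMatrix ι ι A) :
    pm A e * x * (pm A e).conjTranspose = ri e x := pm_conj0 e x

theorem cu_ri (e : ι ≃ κ) (x : CStarMatrix ι ι A) : Cu (ri e x) x := by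
  rw [← pm_conj]
  exact cu_conj _ _

theorem ri_ri (e : ι ≃ κ) (x : CStarMatrix ι ι A) : ri e.symm (ri e x) = x := by
  ext i j
  show x (e.symm (e.symm.symm i)) (e.symm (e.symm.symm j)) = x i j
  simp

theorem dim_ri (hM : QMonoP.{u}) (e : ι ≃ κ) {x : CStarMatrix ι ι A} (hx : 0 ≤ x)
    (ω : QTrace A) : ω.dim (ri e x) = ω.dim x := by
  refine le_antisymm (hM A ω κ ι _ _ (ri_nonneg e hx) hx (cu_ri e x))
    (hM A ω ι κ _ _ hx (ri_nonneg e hx) ?_)
  have := cu_ri e.symm (ri e x)
  rwa [ri_ri] at this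

theorem t (hM : QMonoP.{u}) (hD : QDsumP.{u}) (hB : QBasicP.{u}) : BlkP.{u} := by
  intro B _ _ _ n T f hf
  induction T with
  | zero =>
    have h0 : ∀ (ω : QTrace B) (x : CStarMatrix (Fin 0) (Fin 0) B), 0 ≤ x → ω.dim x = 0 := by
      intro ω x hx
      obtain ⟨-, h1, h2, -⟩ := hB B ω (Fin 0) x hx
      have h3 : ((Fintype.card (Fin 0) : ℕ) : ℝ) = 0 := by simp
      rw [h3] at h2
      exact le_antisymm h2 h1
    refine ⟨0, 0, le_rfl, fun ω => ⟨?_, fun g _ => ?_⟩⟩
    · rw [Finset.sum_range_zero]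
      exact h0 ω 0 le_rfl
    · rw [Finset.sum_range_zero]
      exact h0 ω _ (cut_nonneg _ _)
  | succ T ih =>
    obtain ⟨N, z, hz, h⟩ := ih
    have hd : 0 ≤ dsum z (f T) := dsum_nonneg hz (hf T)
    refine ⟨N + n, ri finSumFinEquiv (dsum z (f T)), ri_nonneg _ hd, fun ω => ⟨?_, fun g hg => ?_⟩⟩
    · rw [dim_ri hM _ hd, (hD B ω _ _ z (f T) hz (hf T)).2, (h ω).1, Finset.sum_range_succ]
    · rw [cut_ri _ hd.isSelfAdjoint, cut_dsum z (f T) hz.isSelfAdjoint (hf T).isSelfAdjoint,
        dim_ri hM _ (dsum_nonneg (cut_nonneg _ _) (cut_nonneg _ _)),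
        (hD B ω _ _ (cut z g) (cut (f T) g) (cut_nonneg _ _) (cut_nonneg _ _)).2,
        (h ω).2 g hg, Finset.sum_range_succ]

end Pool.Agent.Helper12.RC2.BLK
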